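import Pool.Agent.QSB.StmtsV

/-!
# Squad QSB (MP_dc0713_gt), row SNA: `S4` excludes the nonsplit factors of type `A_2`
-/

set_option autoImplicit false

namespace Pool.Agent.QSB.H75

open Matrix Finset Pool.Agent.QSX Pool.Agent.QSN Pool.Agent.QSB

/-- SNA. -/
theorem sna (hG : GwbStmt) : SnaStmt := by
  intro X hS h4 hA
  obtain ⟨S⟩ := hS
  obtain ⟨α, β, hα, hβ, hαβ, ⟨np1, np2⟩, oth, x, y, hx, hy, hxy⟩ := hA
  have pos : ∀ ρ : X.b →ₗ[ℝ] ℝ, IsRt X ρ → 0 < ρ S.a₀ := by
    rintro ρ ⟨z, hz⟩
    exact ((hG X S).1 ρ z hz).2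
  have pα := pos α hα
  have pβ := pos β hβ
  have nz : ∀ ρ : X.b →ₗ[ℝ] ℝ, IsRt X ρ → ρ ≠ 0 := by
    intro ρ hρ h
    have h1 := pos ρ hρ
    rw [h, LinearMap.zero_apply] at h1
    exact lt_irrefl _ h1
  have hA : 0 < ip X α α := ip_self_pos (nz α hα)
  have li : ∀ s t : ℝ, s • α + t • β = 0 → s = 0 ∧ t = 0 := by
    intro s t h
    have hs : s = 0 := by
      by_contra hs
      apply np1 (s⁻¹ * (-t))
      have h1 : s • α = (-t) • β := by
        have h2 : s • α = (s • α + t • β) + (-t) • β := by module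
        rw [h2, h, zero_add]
      rw [← smul_smul, ← h1, smul_smul, inv_mul_cancel₀ hs, one_smul]
    refine ⟨hs, ?_⟩
    rw [hs, zero_smul, zero_add] at h
    rcases smul_eq_zero.mp h with h | h
    · exact h
    · exact absurd h (nz β hβ)
  have comb : ∀ s t : ℝ, IsRt X (s • α + t • β) →
      (s = 1 ∧ t = 0) ∨ (s = 0 ∧ t = 1) ∨ (s = 1 ∧ t = 1) := by
    intro s t h
    rcases oth _ h with e | e | e | ⟨e1, e2⟩
    · left
      have h1 : (s - 1) • α + t • β = 0 := by
        have h2 : (s - 1) • α + t • β = (s • α + t • β) - α := by module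
        rw [h2, e, sub_self]
      have h3 := li _ _ h1
      exact ⟨by linarith [h3.1], h3.2⟩
    · right
      left
      have h1 : s • α + (t - 1) • β = 0 := by
        have h2 : s • α + (t - 1) • β = (s • α + t • β) - β := by module
        rw [h2, e, sub_self]
      have h3 := li _ _ h1
      exact ⟨h3.1, by linarith [h3.2]⟩
    · right
      right
      have h1 : (s - 1) • α + (t - 1) • β = 0 := by
        have h2 : (s - 1) • α + (t - 1) • β = (s • α + t • β) - (α + β) := by module
        rw [h2, e, sub_self]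
      have h3 := li _ _ h1
      exact ⟨by linarith [h3.1], by linarith [h3.2]⟩
    · exfalso
      apply nz _ h
      apply ip_self_eq_zero
      rw [ip_add_right, ip_smul_right, ip_smul_right, e1, e2, mul_zero, mul_zero, add_zero]
  have iii : ∀ γ : X.b →ₗ[ℝ] ℝ, IsRt X γ → NPr γ α → IsRt X (α + γ) → γ = β := by
    intro γ hγ hn hr
    rcases oth γ hγ with e | e | e | ⟨e1, e2⟩
    · exact absurd (show γ = (1 : ℝ) • α by rw [e, one_smul]) (hn.1 1)
    · exact e
    · exfalso
      have h1 : α + γ = (2 : ℝ) • α + (1 : ℝ) • β := by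
        rw [e]
        module
      rw [h1] at hr
      rcases comb _ _ hr with h | h | h <;> norm_num at h
    · rcases oth _ hr with e | e | e | ⟨e3, _⟩
      · exfalso
        apply nz γ hγ
        have h2 : γ = (α + γ) - α := by abel
        rw [h2, e, sub_self]
      · exfalso
        have h1 : γ = (-1 : ℝ) • α + (1 : ℝ) • β := by
          have h2 : γ = (α + γ) - α := by abel
          rw [h2, e]
          module
        rw [h1] at hγ
        rcases comb _ _ hγ with h | h | h <;> norm_num at h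
      · exact add_left_cancel e
      · exfalso
        rw [ip_add_left, e1, add_zero] at e3
        linarith
  rcases h4 α hα with h | ⟨σ, hσ, e⟩ | h | ⟨γ, hγ, h⟩ | ⟨γ, γ', hγ, hγ', n1, n2, h1, h2, h3⟩ |
    ⟨β', γ', hβ', hγ', n1, n2, n3, n4, h1, h2, h3, _⟩
  · -- the root space is generated by brackets
    have half : ∀ σ σ' : X.b →ₗ[ℝ] ℝ, IsRt X σ → IsRt X σ' → σ + σ' = α → ip X σ α ≠ 0 →
        False := by
      intro σ σ' hσ hσ' e hne
      have e0 : σ S.a₀ + σ' S.a₀ = α S.a₀ := by rw [← e, LinearMap.add_apply]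
      have p1 := pos σ' hσ'
      rcases oth σ hσ with e' | e' | e' | ⟨e', _⟩
      · rw [e'] at e0
        linarith
      · have h1 : σ' = (1 : ℝ) • α + (-1 : ℝ) • β := by
          have h2 : σ' = (σ + σ') - σ := by abel
          rw [h2, e, e']
          module
        rw [h1] at hσ'
        rcases comb _ _ hσ' with h | h | h <;> norm_num at h
      · rw [e', LinearMap.add_apply] at e0
        linarith
      · exact hne e'
    have key : ∀ σ σ' : X.b →ₗ[ℝ] ℝ, IsRt X σ → IsRt X σ' → σ + σ' = α → False := by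
      intro σ σ' hσ hσ' e
      by_cases h0 : ip X σ α = 0
      · refine half σ' σ hσ' hσ (by rw [add_comm, e]) ?_
        intro h0'
        have h5 : ip X (σ + σ') α = ip X σ α + ip X σ' α := ip_add_left _ _ _
        rw [e, h0, h0'] at h5
        linarith
      · exact half σ σ' hσ hσ' e h0
    have h5 : x ∈ Submodule.span ℝ {z : Matrix (Fin X.m) (Fin X.m) ℝ |
        ∃ σ σ' y y', NPr σ σ' ∧ σ + σ' = α ∧ RtV X σ y ∧
          RtV X σ' y' ∧ z = y * y' - y' * y} := h x hx
    have h6 : Submodule.span ℝ {z : Matrix (Fin X.m) (Fin X.m) ℝ |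
        ∃ σ σ' y y', NPr σ σ' ∧ σ + σ' = α ∧ RtV X σ y ∧
          RtV X σ' y' ∧ z = y * y' - y' * y} ≤ ⊥ := by
      rw [Submodule.span_le]
      rintro z ⟨σ, σ', u, u', _, e, hu, hu', _⟩
      exact (key σ σ' ⟨u, hu⟩ ⟨u', hu'⟩ e).elim
    exact hx.2 ((Submodule.mem_bot ℝ).mp (h6 h5))
  · -- half of a root
    have h1 : σ = (1 / 2 : ℝ) • α + (0 : ℝ) • β := by
      rw [e]
      module
    rw [h1] at hσ
    rcases comb _ _ hσ with h | h | h <;> norm_num at h
  · obtain ⟨c, hc⟩ := h x y hx hy
    exact hxy c hc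
  · rcases oth γ hγ with e | e | e | ⟨e1, e2⟩
    · have h1 : (2 : ℝ) • α + γ = (3 : ℝ) • α + (0 : ℝ) • β := by
        rw [e]
        module
      rw [h1] at h
      rcases comb _ _ h with h | h | h <;> norm_num at h
    · have h1 : (2 : ℝ) • α + γ = (2 : ℝ) • α + (1 : ℝ) • β := by
        rw [e]
        module
      rw [h1] at h
      rcases comb _ _ h with h | h | h <;> norm_num at h
    · have h1 : (2 : ℝ) • α + γ = (3 : ℝ) • α + (1 : ℝ) • β := by
        rw [e]
        module
      rw [h1] at h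
      rcases comb _ _ h with h | h | h <;> norm_num at h
    · have h2 : γ = ((2 : ℝ) • α + γ) - (2 : ℝ) • α := by module
      rcases oth _ h with e | e | e | ⟨e3, _⟩
      · have h1 : γ = (-1 : ℝ) • α + (0 : ℝ) • β := by
          rw [h2, e]
          module
        rw [h1] at hγ
        rcases comb _ _ hγ with h | h | h <;> norm_num at h
      · have h1 : γ = (-2 : ℝ) • α + (1 : ℝ) • β := by
          rw [h2, e]
          module
        rw [h1] at hγ
        rcases comb _ _ hγ with h | h | h <;> norm_num at h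
      · have h1 : γ = (-1 : ℝ) • α + (1 : ℝ) • β := by
          rw [h2, e]
          module
        rw [h1] at hγ
        rcases comb _ _ hγ with h | h | h <;> norm_num at h
      · rw [ip_add_left, ip_smul_left, e1, add_zero] at e3
        linarith
  · have g1 := iii γ hγ n1 h1
    have g2 := iii γ' hγ' n2 h2
    rw [g1, g2] at h3
    have h5 : α + β + β = (1 : ℝ) • α + (2 : ℝ) • β := by module
    rw [h5] at h3
    rcases comb _ _ h3 with h | h | h <;> norm_num at h
  · have g1 := iii β' hβ' n1 h1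
    have g2 := iii (β' + γ') h2 n4 (by rw [← add_assoc]; exact h3)
    have p1 := pos γ' hγ'
    have e0 : β' S.a₀ + γ' S.a₀ = β S.a₀ := by rw [← g2, LinearMap.add_apply]
    rw [g1] at e0
    linarith

end Pool.Agent.QSB.H75
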