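import Pool.Agent.QSB.StmtsX4

/-!
# QSB row S4A: the condition on the simple roots implies the condition `S4`
-/

set_option autoImplicit false

namespace Pool.Agent.QSB.H75

open Matrix Finset Pool.Agent.QSX Pool.Agent.QSB

theorem rtv {X : Dat} (R : RBas X) (w : R.ι) : RtV X (R.rt w) (R.e w) :=
  ⟨⟨R.span_e ▸ Submodule.subset_span ⟨w, rfl⟩, R.wt w⟩, R.lin.ne_zero w⟩

theorem gnd_of (rys : RysStmt) (wtr : WtrStmt) (gns : GnsStmt) (X : Dat)
    (hS : Nonempty (Sym X)) (R : RBas X) (ρ : X.b →ₗ[ℝ] ℝ)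
    (hc : ∀ α, Smp X α → ∀ c : ℝ, ρ ≠ c • α) : Gnd X ρ := by
  intro x hx
  have h1 := (wtr X R ρ).1 x hx.1
  refine (Submodule.span_le.2 ?_) h1
  rintro _ ⟨t, ht, rfl⟩
  have ht' : R.rt t = ρ := ht
  have h2 := gns X hS R t (fun α hα c hcc => hc α hα c (ht'.symm.trans hcc))
  refine (Submodule.span_mono ?_) h2
  rintro z ⟨w, w', hww, hsum, rfl⟩
  refine ⟨R.rt w, R.rt w', R.e w, R.e w', ⟨hww, ?_⟩, by rw [hsum, ht'], rtv R w, rtv R w', rfl⟩
  intro c hcc
  by_cases hc0 : c = 0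
  · have h3 : R.rt w' = 0 := by rw [hcc, hc0, zero_smul]
    have h4 : IsRt X (R.rt w') := ⟨_, rtv R w'⟩
    have h5 : IsRt X ((0 : ℝ) • R.rt w') := by
      rw [zero_smul, ← h3]
      exact h4
    rcases rys X hS (R.rt w') 0 h4 h5 with h | h | h <;> norm_num at h
  · exact hww c⁻¹ (by rw [hcc, smul_smul, inv_mul_cancel₀ hc0, one_smul])

theorem s4a (rys : RysStmt) (wtr : WtrStmt) (gns : GnsStmt) : S4aStmt := by
  rintro X hS ⟨R⟩ h4 ρ hρ
  by_cases hc : ∃ α, Smp X α ∧ ∃ c : ℝ, ρ = c • α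
  · obtain ⟨α, hα, c, hρα⟩ := hc
    subst hρα
    rcases rys X hS α c hα.1 hρ with h | h | h
    · subst h
      rw [one_smul]
      rcases h4 α hα with h | h | h | h
      · exact Or.inr (Or.inr (Or.inl h))
      · exact Or.inr (Or.inr (Or.inr (Or.inl h)))
      · exact Or.inr (Or.inr (Or.inr (Or.inr (Or.inl h))))
      · exact Or.inr (Or.inr (Or.inr (Or.inr (Or.inr h))))
    · subst h
      exact Or.inr (Or.inl ⟨α, hα.1, rfl⟩)
    · subst h
      exfalso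
      refine hα.2 _ _ hρ hρ ?_
      rw [← add_smul]
      norm_num
  · left
    exact gnd_of rys wtr gns X hS R ρ fun α hα c h => hc ⟨α, hα, c, h⟩

end Pool.Agent.QSB.H75
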